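import Pool.Agent.W62.CritMain

/-!
# Dense critical graphs of large odd girth: extraction of the critical subgraph
-/

set_option autoImplicit false
set_option maxHeartbeats 4000000

namespace Pool.Agent.W62.Crit

theorem exists_crit {W : Type} [Finite W] (K : ℕ) (G : SimpleGraph W) (hG : ¬ G.Colorable K) :
    ∃ H : SimpleGraph W, H ≤ G ∧ ¬ H.Colorable K ∧
      ∀ e ∈ H.edgeSet, (H.deleteEdges {e}).Colorable K := by
  classical
  obtain ⟨H, hH, hmin⟩ := wellFounded_lt.has_min {H : SimpleGraph W | H ≤ G ∧ ¬ H.Colorable K}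
    ⟨G, le_refl _, hG⟩
  refine ⟨H, hH.1, hH.2, fun e he => ?_⟩
  by_contra hcon
  have h1 : H.deleteEdges {e} < H := by
    refine lt_of_le_of_ne (SimpleGraph.deleteEdges_le _) ?_
    intro heq
    have h2 : e ∈ (H.deleteEdges {e}).edgeSet := by rw [heq]; exact he
    rw [SimpleGraph.edgeSet_deleteEdges] at h2
    exact h2.2 rfl
  exact hmin _ ⟨h1.le.trans hH.1, hcon⟩ h1

/-- the general statement: a non-`K`-colourable finite graph with many edges each of which is
critical, and which maps to a graph without short odd closed walks -/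
theorem final {W V : Type} [Finite W] (K ℓ m : ℕ) (hK : 0 < K) (hm : 0 < m) (G : SimpleGraph W)
    (M : SimpleGraph V) (ψ : W → V) (hψ : ∀ a b, G.Adj a b → M.Adj (ψ a) (ψ b))
    (hM : ∀ (a : V) (p : M.Walk a a), Odd p.length → ℓ ≤ p.length)
    (hG : ¬ G.Colorable K) (x y : Fin m → W) (hx : Function.Injective x)
    (hy : Function.Injective y) (hxy : ∀ i j, x i ≠ y j)
    (hadj : ∀ i j, G.Adj (x i) (y j))
    (hdel : ∀ i j, (G.deleteEdges {s(x i, y j)}).Colorable K) :
    ∃ n : ℕ, m ≤ n ∧ n ≤ Nat.card W ∧ ∃ H : SimpleGraph (Fin n),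
      H.chromaticNumber = ((K + 1 : ℕ) : ℕ∞) ∧
      (∀ e ∈ H.edgeSet, (H.deleteEdges {e}).Colorable K) ∧
      (∀ v : Fin n, ∃ w : Fin n, H.Adj v w) ∧
      (∀ (v : Fin n) (p : H.Walk v v), p.IsCycle → Odd p.length → ℓ ≤ p.length) ∧
      m ^ 2 ≤ Nat.card H.edgeSet := by
  classical
  obtain ⟨H, hHG, hHK, hHe⟩ := exists_crit K G hG
  -- the edges between `x` and `y` are in `H`
  have hxyH : ∀ i j, H.Adj (x i) (y j) := by
    intro i j
    by_contra hcon
    apply hHK
    have h1 : H ≤ G.deleteEdges {s(x i, y j)} := by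
      intro a b hab
      rw [SimpleGraph.deleteEdges_adj]
      refine ⟨hHG hab, ?_⟩
      rw [Set.mem_singleton_iff]
      intro heq
      rw [Sym2.eq_iff] at heq
      rcases heq with ⟨rfl, rfl⟩ | ⟨rfl, rfl⟩
      · exact hcon hab
      · exact hcon hab.symm
    exact (hdel i j).mono_left h1
  -- the non-isolated vertices
  let S : Set W := {v | ∃ w, H.Adj v w}
  have hfin : Finite S := inferInstance
  let eqv : S ≃ Fin (Nat.card S) := Finite.equivFin S
  let f : Fin (Nat.card S) → W := fun a => (eqv.symm a).1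
  have hfinj : Function.Injective f := fun a b hab => eqv.symm.injective (Subtype.ext hab)
  have hfS : ∀ v ∈ S, ∃ a, f a = v := fun v hv => ⟨eqv ⟨v, hv⟩, by
    show (eqv.symm (eqv ⟨v, hv⟩)).1 = v
    rw [Equiv.symm_apply_apply]⟩
  have hfmem : ∀ a, f a ∈ S := fun a => (eqv.symm a).2
  let H' : SimpleGraph (Fin (Nat.card S)) := H.comap f
  have hH'adj : ∀ a b, H'.Adj a b ↔ H.Adj (f a) (f b) := fun a b => Iff.rfl
  have hnc : ¬ H'.Colorable K := by
    rintro ⟨c⟩
    apply hHK
    have : ∀ v : W, ∃ k : Fin K, ∀ a, f a = v → c a = k := by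
      intro v
      by_cases hv : v ∈ S
      · obtain ⟨a, ha⟩ := hfS v hv
        exact ⟨c a, fun b hb => by rw [hfinj (hb.trans ha.symm)]⟩
      · exact ⟨⟨0, hK⟩, fun a ha => absurd (hfmem a) (by rw [ha]; exact hv)⟩
    choose k hk using this
    refine ⟨SimpleGraph.Coloring.mk k ?_⟩
    intro u v huv
    obtain ⟨a, rfl⟩ := hfS u ⟨v, huv⟩
    obtain ⟨b, rfl⟩ := hfS v ⟨_, huv.symm⟩
    rw [← hk _ a rfl, ← hk _ b rfl]
    exact c.valid ((hH'adj a b).2 huv)
  have hdelH' : ∀ e ∈ H'.edgeSet, (H'.deleteEdges {e}).Colorable K := by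
    intro e he
    induction e using Sym2.ind with
    | _ a b =>
      rw [SimpleGraph.mem_edgeSet] at he
      obtain ⟨c⟩ := hHe s(f a, f b) ((SimpleGraph.mem_edgeSet _).2 ((hH'adj a b).1 he))
      refine ⟨SimpleGraph.Coloring.mk (fun v => c (f v)) ?_⟩
      intro u v huv
      rw [SimpleGraph.deleteEdges_adj] at huv
      apply c.valid
      rw [SimpleGraph.deleteEdges_adj]
      refine ⟨(hH'adj u v).1 huv.1, ?_⟩
      intro hmem
      apply huv.2
      rw [Set.mem_singleton_iff] at hmem ⊢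
      rw [Sym2.eq_iff] at hmem ⊢
      rcases hmem with ⟨h1, h2⟩ | ⟨h1, h2⟩
      · exact Or.inl ⟨hfinj h1, hfinj h2⟩
      · exact Or.inr ⟨hfinj h1, hfinj h2⟩
  -- preimages of `x i`, `y j`
  have hxa : ∀ i, ∃ a, f a = x i := fun i => hfS _ ⟨y ⟨0, hm⟩, hxyH i _⟩
  have hya : ∀ j, ∃ b, f b = y j := fun j => hfS _ ⟨x ⟨0, hm⟩, (hxyH _ j).symm⟩
  choose xa hxa using hxa
  choose ya hya using hya
  have hxyH' : ∀ i j, H'.Adj (xa i) (ya j) := by
    intro i j
    rw [hH'adj, hxa, hya]
    exact hxyH i j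
  have hc1 : H'.Colorable (K + 1) := by
    have he := hxyH' ⟨0, hm⟩ ⟨0, hm⟩
    set a := xa ⟨0, hm⟩
    set b := ya ⟨0, hm⟩
    obtain ⟨c⟩ := hdelH' s(a, b) ((SimpleGraph.mem_edgeSet _).2 he)
    refine ⟨SimpleGraph.Coloring.mk (fun v => if v = a then Fin.last K else (c v).castSucc) ?_⟩
    intro u v huv
    by_cases hu : u = a
    · have hv : v ≠ a := by
        rintro rfl
        rw [hu] at huv
        exact huv.ne rfl
      simp only [hu, hv, if_true, if_false]
      exact (Fin.castSucc_lt_last _).ne'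
    · by_cases hv : v = a
      · simp only [hu, hv, if_true, if_false]
        exact (Fin.castSucc_lt_last _).ne
      · simp only [hu, hv, if_false]
        intro heq
        have h2 := Fin.castSucc_injective _ heq
        refine c.valid ?_ h2
        rw [SimpleGraph.deleteEdges_adj]
        refine ⟨huv, ?_⟩
        rw [Set.mem_singleton_iff]
        intro h3
        rw [Sym2.eq_iff] at h3
        rcases h3 with ⟨h4, _⟩ | ⟨_, h4⟩
        · exact hu h4
        · exact hv h4
  refine ⟨Nat.card S, ?_, ?_, H', ?_, hdelH', ?_, ?_, ?_⟩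
  · have h1 : Function.Injective xa := by
      intro i j hij
      apply hx
      rw [← hxa i, ← hxa j, hij]
    have := Nat.card_le_card_of_injective xa h1
    simpa using this
  · exact Nat.card_le_card_of_injective (Subtype.val : S → W) Subtype.val_injective
  · push_cast
    rw [SimpleGraph.chromaticNumber_eq_iff_colorable_not_colorable]
    exact ⟨hc1, hnc⟩
  · intro v
    obtain ⟨w, hw⟩ := hfmem v
    obtain ⟨b, rfl⟩ := hfS w ⟨_, hw.symm⟩
    exact ⟨b, (hH'adj v b).2 hw⟩
  · intro v p _ hodd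
    let φ : H' →g M := ⟨fun a => ψ (f a), fun {a b} hab => hψ _ _ (hHG ((hH'adj a b).1 hab))⟩
    have h1 := hM _ (p.map φ)
    rw [SimpleGraph.Walk.length_map] at h1
    exact h1 hodd
  · let g : Fin m × Fin m → H'.edgeSet := fun q => ⟨s(xa q.1, ya q.2),
      (SimpleGraph.mem_edgeSet _).2 (hxyH' q.1 q.2)⟩
    have hg : Function.Injective g := by
      rintro ⟨i, j⟩ ⟨i', j'⟩ h
      have h1 : s(xa i, ya j) = s(xa i', ya j') := congrArg Subtype.val h
      rw [Sym2.eq_iff] at h1
      rcases h1 with ⟨h2, h3⟩ | ⟨h2, h3⟩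
      · have e1 : i = i' := hx (by rw [← hxa i, ← hxa i', h2])
        have e2 : j = j' := hy (by rw [← hya j, ← hya j', h3])
        rw [e1, e2]
      · exfalso
        exact hxy i j' (by rw [← hxa i, ← hya j', h2])
    have := Nat.card_le_card_of_injective g hg
    rw [Nat.card_prod, Nat.card_fin] at this
    rw [pow_two]
    exact this

theorem main (ℓ K : ℕ) (hK : 3 ≤ K) (N : ℕ) : ∃ n : ℕ, N ≤ n ∧ ∃ H : SimpleGraph (Fin n),
      H.chromaticNumber = ((K + 1 : ℕ) : ℕ∞) ∧
      (∀ e ∈ H.edgeSet, (H.deleteEdges {e}).Colorable K) ∧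
      (∀ v : Fin n, ∃ w : Fin n, H.Adj v w) ∧
      (∀ (v : Fin n) (p : H.Walk v v), p.IsCycle → Odd p.length → ℓ ≤ p.length) ∧
      (1 / 49 : ℝ) * (n : ℝ) ^ 2 ≤ (Nat.card H.edgeSet : ℝ) := by
  classical
  obtain ⟨V, hV, M, w0, w1, hw, hM1, hM2⟩ := exists_M K ℓ (by omega)
  let w : Bool → V := fun b => if b then w1 else w0
  have hw' : M.Adj (w false) (w true) := hw
  obtain ⟨m, hm⟩ : ∃ m : ℕ, m = N + 2 + K * Fintype.card V := ⟨_, rfl⟩
  obtain ⟨n, h1, h2, H, h3, h4, h5, h6, h7⟩ := final K ℓ m (by omega) (by omega)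
    (GG M w hw' : SimpleGraph (W m K V)) M (toM w)
    (by
      intro a b hab
      rcases hab with h | h
      · exact h.toM_adj hw'
      · exact (h.toM_adj hw').symm)
    hM2 (not_colorable M w hw' hM1) (fun i => Sum.inl (va false i)) (fun i => Sum.inl (va true i))
    (by
      intro i j hij
      simpa using hij)
    (by
      intro i j hij
      simpa using hij)
    (by
      intro i j hij
      simp at hij)
    (fun i j => Or.inl (RW.main (RG.ab i j)))
    (fun i j => colorable_del M w hw' hK i j)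
  refine ⟨n, by omega, H, h3, h4, h5, h6, ?_⟩
  have hcard : Nat.card (W m K V) = 2 * (m + ((m + 1) + m)) + K * Fintype.card V := by
    rw [Nat.card_eq_fintype_card]
    simp [W, Ga]
  have hn7 : n ≤ 7 * m := by
    rw [hcard] at h2
    omega
  have h8 : (n : ℝ) ≤ 7 * m := by exact_mod_cast hn7
  have h9 : ((m : ℝ)) ^ 2 ≤ (Nat.card H.edgeSet : ℝ) := by exact_mod_cast h7
  have h10 : (0 : ℝ) ≤ n := Nat.cast_nonneg n
  nlinarith

end Pool.Agent.W62.Crit
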