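import Pool.Agent.W128.VA.Stm2

/-!
# Project VA (owner helper128): VA-HEI1, generation by the vacuum space
-/

set_option autoImplicit false
set_option maxHeartbeats 4000000

namespace Pool.Agent.W62.VAHei1

open Pool.Agent.W128.VA

universe u

section

variable {M : Type u} [AddCommGroup M] [Module ℂ M]

theorem comm_pow (A B : Module.End ℂ M) (c : ℂ) (hAB : ∀ w, A (B w) - B (A w) = c • w)
    (y : M) (hy : A y = 0) (k : ℕ) :
    A ((B ^ (k + 1)) y) = (((k : ℂ) + 1) * c) • (B ^ k) y := by
  induction k with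
  | zero =>
    have := hAB y
    rw [hy, map_zero, sub_zero] at this
    simpa using this
  | succ k ih =>
    have h1 := hAB ((B ^ (k + 1)) y)
    rw [ih] at h1
    rw [pow_succ' B (k + 1), Module.End.mul_apply]
    rw [sub_eq_iff_eq_add] at h1
    rw [h1, map_smul, ← Module.End.mul_apply B, ← pow_succ' B k, ← add_smul]
    congr 1
    push_cast
    ring

theorem pow_pow (A B : Module.End ℂ M) (c : ℂ) (hAB : ∀ w, A (B w) - B (A w) = c • w)
    (y : M) (hy : A y = 0) (K : ℕ) :
    (A ^ K) ((B ^ K) y) = ((K.factorial : ℂ) * c ^ K) • y := by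
  induction K with
  | zero => simp
  | succ K ih =>
    rw [pow_succ A K, Module.End.mul_apply, comm_pow A B c hAB y hy K, map_smul, ih, smul_smul]
    congr 1
    rw [Nat.factorial_succ]
    push_cast
    ring

theorem comm_of (A B : Module.End ℂ M) (hAB : ∀ w, A (B w) = B (A w)) (k : ℕ) (w : M) :
    A ((B ^ k) w) = (B ^ k) (A w) := by
  induction k with
  | zero => simp
  | succ k ih =>
    rw [pow_succ' B k, Module.End.mul_apply, Module.End.mul_apply, hAB, ih]

theorem deg_pow {gr : ℤ → Submodule ℂ M} {h e f : ℤ → Module.End ℂ M} (H : SlRel gr h e f)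
    (n d : ℤ) (w : M) (hw : w ∈ gr d) (k : ℕ) : ((h n) ^ k) w ∈ gr (d - k * n) := by
  induction k with
  | zero => simpa using hw
  | succ k ih =>
    rw [pow_succ' (h n) k, Module.End.mul_apply]
    have := H.dh n _ _ ih
    have e1 : d - (k : ℤ) * n - n = d - ((k + 1 : ℕ) : ℤ) * n := by push_cast; ring
    rwa [e1] at this

theorem reduce {gr : ℤ → Submodule ℂ M} {h e f : ℤ → Module.End ℂ M} (H : SlRel gr h e f)
    (U : Submodule ℂ M) (hU : ∀ n : ℤ, 0 < n → ∀ w ∈ U, h (-n) w ∈ U) (d : ℤ)
    (IH : ∀ d', d' < d → gr d' ≤ U) (n : ℤ) (hn : 0 < n) (K : ℕ) :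
    ∀ w ∈ gr d, ((h n) ^ (K + 1)) w = 0 → ∃ w' ∈ gr d, h n w' = 0 ∧ w - w' ∈ U ∧
      ∀ m : ℤ, 0 < m → m ≠ n → h m w = 0 → h m w' = 0 := by
  have hc : (2 * (n : ℂ)) ≠ 0 := by
    have : (n : ℂ) ≠ 0 := by exact_mod_cast hn.ne'
    exact mul_ne_zero two_ne_zero this
  have hAB : ∀ w, h n (h (-n) w) - h (-n) (h n w) = (2 * (n : ℂ)) • w := by
    intro w
    have := H.hh n (-n) w
    rwa [if_pos (by ring)] at this
  induction K with
  | zero =>
    intro w hw h0
    refine ⟨w, hw, by simpa using h0, by simp, fun m _ _ h => h⟩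
  | succ K ih =>
    intro w hw h0
    set y := ((h n) ^ (K + 1)) w with hy
    have hAy : h n y = 0 := by
      rw [hy, ← Module.End.mul_apply, ← pow_succ' (h n) (K + 1)]
      exact h0
    have hfac : (((K + 1).factorial : ℂ) * (2 * (n : ℂ)) ^ (K + 1)) ≠ 0 :=
      mul_ne_zero (by exact_mod_cast (K + 1).factorial_ne_zero) (pow_ne_zero _ hc)
    set a : ℂ := (((K + 1).factorial : ℂ) * (2 * (n : ℂ)) ^ (K + 1))⁻¹ with ha
    have hydeg : y ∈ gr (d - ((K + 1 : ℕ) : ℤ) * n) := deg_pow H n d w hw (K + 1)
    have hB1 : ((h (-n)) ^ (K + 1)) y ∈ gr d := by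
      have := deg_pow H (-n) _ y hydeg (K + 1)
      have e1 : d - ((K + 1 : ℕ) : ℤ) * n - ((K + 1 : ℕ) : ℤ) * (-n) = d := by ring
      rwa [e1] at this
    have hB0 : ((h (-n)) ^ K) y ∈ gr (d - n) := by
      have := deg_pow H (-n) _ y hydeg K
      have e1 : d - ((K + 1 : ℕ) : ℤ) * n - (K : ℤ) * (-n) = d - n := by push_cast; ring
      rwa [e1] at this
    obtain ⟨w', hw', h1, h2, h3⟩ := ih (w - a • ((h (-n)) ^ (K + 1)) y)
      (sub_mem hw ((gr d).smul_mem a hB1)) (by
        rw [map_sub, map_smul, pow_pow (h n) (h (-n)) (2 * (n : ℂ)) hAB y hAy (K + 1), smul_smul,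
          ha, inv_mul_cancel₀ hfac, one_smul, ← hy, sub_self])
    refine ⟨w', hw', h1, ?_, fun m hm hmn hmw => h3 m hm hmn ?_⟩
    · have e1 : w - w' = (w - a • ((h (-n)) ^ (K + 1)) y - w') + a • ((h (-n)) ^ (K + 1)) y := by
        abel
      rw [e1]
      refine add_mem h2 (U.smul_mem a ?_)
      rw [pow_succ' (h (-n)) K, Module.End.mul_apply]
      exact hU n hn _ (IH (d - n) (by omega) hB0)
    · have c1 : ∀ v, h m (h n v) = h n (h m v) := by
        intro v
        have := H.hh m n v
        rw [if_neg (by omega), zero_smul, sub_eq_zero] at this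
        exact this
      have c2 : ∀ v, h m (h (-n) v) = h (-n) (h m v) := by
        intro v
        have := H.hh m (-n) v
        rw [if_neg (by omega), zero_smul, sub_eq_zero] at this
        exact this
      rw [map_sub, map_smul, comm_of _ _ c2, hy, comm_of _ _ c1, hmw]
      simp

end

theorem main.{v} : S_HEI1.{v} := by
  intro M _ _ gr h e f H U hU1 hU2
  have key : ∀ k : ℕ, ∀ d : ℤ, d < k → gr d ≤ U := by
    intro k
    induction k with
    | zero =>
      intro d hd
      rw [H.gr_neg d (by simpa using hd)]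
      exact bot_le
    | succ k ih =>
      intro d hd w hw
      have IH : ∀ d', d' < d → gr d' ≤ U := fun d' hd' => ih d' (by push_cast at hd; omega)
      have step : ∀ N : ℕ, ∃ u ∈ gr d, w - u ∈ U ∧
          ∀ m : ℤ, 0 < m → m ≤ (N : ℤ) → h m u = 0 := by
        intro N
        induction N with
        | zero => exact ⟨w, hw, by simp, fun m h1 h2 => absurd h2 (by push_cast; omega)⟩
        | succ N ihN =>
          obtain ⟨u, hu, h1, h2⟩ := ihN
          have hnil : ((h ((N : ℤ) + 1)) ^ (d.toNat + 1)) u = 0 := by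
            have := deg_pow H ((N : ℤ) + 1) d u hu (d.toNat + 1)
            have hneg : d - ((d.toNat + 1 : ℕ) : ℤ) * ((N : ℤ) + 1) < 0 := by
              have h5 : d ≤ d.toNat := Int.self_le_toNat d
              have h6 : (0 : ℤ) ≤ (d.toNat : ℤ) * (N : ℤ) := by positivity
              push_cast
              nlinarith
            rw [H.gr_neg _ hneg] at this
            simpa using this
          obtain ⟨u', hu', h3, h4, h5⟩ := reduce H U hU2 d IH ((N : ℤ) + 1) (by omega) d.toNat
            u hu hnil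
          refine ⟨u', hu', ?_, fun m hm hmN => ?_⟩
          · have e1 : w - u' = (w - u) + (u - u') := by abel
            rw [e1]
            exact add_mem h1 h4
          · by_cases hm1 : m = (N : ℤ) + 1
            · rw [hm1]; exact h3
            · exact h5 m hm hm1 (h2 m hm (by push_cast at hmN; omega))
      obtain ⟨u, hu, h1, h2⟩ := step d.toNat
      have hu0 : ∀ n : ℤ, 0 < n → h n u = 0 := by
        intro n hn
        by_cases hnd : n ≤ (d.toNat : ℤ)
        · exact h2 n hn hnd
        · have h5 : d ≤ d.toNat := Int.self_le_toNat d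
          have := H.dh n d u hu
          rw [H.gr_neg _ (by omega)] at this
          simpa using this
      have hw2 : w = (w - u) + u := by abel
      rw [hw2]
      exact add_mem h1 (hU1 d u hu hu0)
  have htop := H.gr_int.submodule_iSup_eq_top
  rw [eq_top_iff, ← htop]
  refine iSup_le fun d => key (d.toNat + 1) d ?_
  have h5 : d ≤ d.toNat := Int.self_le_toNat d
  push_cast
  omega

end Pool.Agent.W62.VAHei1
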