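import Pool.Agent.W62.CritShift

/-!
# Dense critical graphs of large odd girth: the main graph
-/

set_option autoImplicit false
set_option maxHeartbeats 4000000

namespace Pool.Agent.W62.Crit

/-- every colouring of `K_K × M` with `K` colours is the projection up to a permutation on the
component of `w0` if this component is not `K`-colourable -/
theorem forcing {V : Type} {K : ℕ} (M : SimpleGraph V) (w0 : V)
    (hM : ¬ ∃ c : V → Fin K, ∀ g h, M.Reachable w0 g → M.Adj g h → c g ≠ c h)
    (c : Fin K × V → Fin K)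
    (hc : ∀ i j g h, i ≠ j → M.Adj g h → c (i, g) ≠ c (j, h)) :
    ∃ π : Fin K → Fin K, Function.Bijective π ∧ ∀ g, M.Reachable w0 g → ∀ i, c (i, g) = π i := by
  classical
  have h1 : ∃ g, M.Reachable w0 g ∧ Function.Injective (fun i => c (i, g)) := by
    by_contra hcon
    push Not at hcon
    apply hM
    have h2 : ∀ g, ∃ x : Fin K, M.Reachable w0 g → ∃ i j, i ≠ j ∧ c (i, g) = x ∧ c (j, g) = x := by
      intro g
      by_cases hg : M.Reachable w0 g
      · have := hcon g hg
        unfold Function.Injective at this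
        push Not at this
        obtain ⟨i, j, hij, hne⟩ := this
        exact ⟨c (i, g), fun _ => ⟨i, j, hne, rfl, hij.symm⟩⟩
      · by_cases hK : Nonempty (Fin K)
        · exact ⟨hK.some, fun h => absurd h hg⟩
        · exfalso
          apply hM
          rw [not_nonempty_iff] at hK
          exact absurd (hcon w0 (SimpleGraph.Reachable.refl _)) (by
            intro h
            exact h (fun a => (hK.false a).elim))
    choose s hs using h2
    refine ⟨s, fun g h hg hgh heq => ?_⟩
    obtain ⟨i, j, hij, hi, hj⟩ := hs g hg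
    obtain ⟨i', j', hij', hi', hj'⟩ := hs h (hg.trans hgh.reachable)
    by_cases hii : i = i'
    · have : j ≠ i' := by rintro rfl; exact hij hii
      exact hc j i' g h this hgh (by rw [hj, hi', heq])
    · exact hc i i' g h hii hgh (by rw [hi, hi', heq])
  obtain ⟨g0, hg0, hinj⟩ := h1
  have hbij : Function.Bijective (fun i => c (i, g0)) := Finite.injective_iff_bijective.1 hinj
  refine ⟨fun i => c (i, g0), hbij, ?_⟩
  have key : ∀ g h : V, M.Reachable g h → (∀ i, c (i, g) = c (i, g0)) → ∀ i, c (i, h) = c (i, g0) := by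
    intro g h hgh
    obtain ⟨p⟩ := hgh
    induction p with
    | nil => exact fun h => h
    | @cons u v w huv p ih =>
      intro hu
      apply ih
      intro j
      obtain ⟨i, hi⟩ := hbij.2 (c (j, v))
      simp only at hi
      by_cases hij : i = j
      · rw [← hi, hij]
      · exfalso
        apply hc i j u v hij huv
        rw [hu, hi]
  intro g hg
  exact key g0 g (hg0.symm.trans hg) (fun _ => rfl)

/-- vertices of the main part: side, and kind -/
abbrev Ga (m : ℕ) : Type := Bool × (Fin m ⊕ (Fin (m + 1) ⊕ Fin m))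

/-- all vertices -/
abbrev W (m K : ℕ) (V : Type) : Type := Ga m ⊕ (Fin K × V)

abbrev va {m : ℕ} (s : Bool) (i : Fin m) : Ga m := (s, Sum.inl i)
abbrev ve {m : ℕ} (s : Bool) (i : Fin (m + 1)) : Ga m := (s, Sum.inr (Sum.inl i))
abbrev vo {m : ℕ} (s : Bool) (i : Fin m) : Ga m := (s, Sum.inr (Sum.inr i))

/-- normal colour and third colour of a side; the special colour is `1` -/
def pc (s : Bool) : ℕ := if s then 2 else 0
def tc (s : Bool) : ℕ := if s then 0 else 2

/-- the lists of allowed colours -/
def allowed {m : ℕ} : Ga m → ℕ → Prop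
  | (s, Sum.inl _), x => x = pc s ∨ x = 1
  | (s, Sum.inr (Sum.inl i)), x => (x = 1 ∧ i.val ≠ m) ∨ (x = tc s ∧ i.val ≠ 0)
  | (_, Sum.inr (Sum.inr _)), x => x = 0 ∨ x = 1 ∨ x = 2

/-- the class of a vertex -/
def cls {m : ℕ} : Ga m → Bool
  | (s, Sum.inl _) => s
  | (s, Sum.inr (Sum.inl _)) => s
  | (s, Sum.inr (Sum.inr _)) => !s

/-- arcs inside the main part -/
inductive RG {m : ℕ} : Ga m → Ga m → Prop
  | ab (i j : Fin m) : RG (va false i) (va true j)
  | oa (s : Bool) (i : Fin m) : RG (vo s i) (va s i)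
  | oe (s : Bool) (i : Fin m) : RG (vo s i) (ve s i.castSucc)
  | oe' (s : Bool) (i : Fin m) : RG (vo s i) (ve s i.succ)

theorem RG.cls_ne {m : ℕ} {u v : Ga m} (h : RG u v) : cls v = !cls u := by
  cases h <;> simp [cls]

/-- arcs of the whole graph -/
inductive RW {m K : ℕ} {V : Type} (M : SimpleGraph V) (w : Bool → V) : W m K V → W m K V → Prop
  | main {u v : Ga m} (h : RG u v) : RW M w (Sum.inl u) (Sum.inl v)
  | pal {i j : Fin K} {g h : V} (hij : i ≠ j) (hgh : M.Adj g h) :
      RW M w (Sum.inr (i, g)) (Sum.inr (j, h))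
  | cross {u : Ga m} {j : Fin K} (h : ¬ allowed u j.val) : RW M w (Sum.inl u) (Sum.inr (j, w (!cls u)))

/-- the homomorphism to `M` -/
def toM {m K : ℕ} {V : Type} (w : Bool → V) : W m K V → V
  | Sum.inl u => w (cls u)
  | Sum.inr (_, g) => g

theorem RW.toM_adj {m K : ℕ} {V : Type} {M : SimpleGraph V} {w : Bool → V}
    (hw : M.Adj (w false) (w true)) {a b : W m K V} (h : RW M w a b) :
    M.Adj (toM w a) (toM w b) := by
  have hw' : ∀ s : Bool, M.Adj (w s) (w (!s)) := by
    intro s
    cases s
    · exact hw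
    · exact hw.symm
  cases h with
  | main h =>
    simp only [toM]
    rw [h.cls_ne]
    exact hw' _
  | pal hij hgh => exact hgh
  | cross h =>
    simp only [toM]
    exact hw' _

/-- the graph -/
def GG {m K : ℕ} {V : Type} (M : SimpleGraph V) (w : Bool → V) (hw : M.Adj (w false) (w true)) :
    SimpleGraph (W m K V) where
  Adj a b := RW M w a b ∨ RW M w b a
  symm := ⟨fun _ _ h => h.symm⟩
  loopless := ⟨fun a h => by
    rcases h with h | h <;> exact (h.toM_adj hw).ne rfl⟩

theorem not_colorable {m K : ℕ} {V : Type} (M : SimpleGraph V) (w : Bool → V)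
    (hw : M.Adj (w false) (w true))
    (hM : ¬ ∃ c : V → Fin K, ∀ g h, M.Reachable (w false) g → M.Adj g h → c g ≠ c h) :
    ¬ (GG M w hw : SimpleGraph (W m K V)).Colorable K := by
  classical
  rintro ⟨c⟩
  obtain ⟨π, hπ, hcπ⟩ := forcing M (w false) hM (fun p => c (Sum.inr p)) (by
    intro i j g h hij hgh
    exact c.valid (Or.inl (RW.pal hij hgh)))
  obtain ⟨σ, hσ⟩ : ∃ σ : Fin K → Fin K, ∀ x, π (σ x) = x := ⟨Function.surjInv hπ.2,
    Function.surjInv_eq hπ.2⟩
  have hwr : ∀ s : Bool, M.Reachable (w false) (w s) := by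
    intro s
    cases s
    · exact SimpleGraph.Reachable.refl _
    · exact hw.reachable
  have hall : ∀ u : Ga m, allowed u (σ (c (Sum.inl u))).val := by
    intro u
    by_contra hcon
    have h1 : (GG M w hw : SimpleGraph (W m K V)).Adj (Sum.inl u)
      (Sum.inr (σ (c (Sum.inl u)), w (!cls u))) := Or.inl (RW.cross hcon)
    have h2 := c.valid h1
    have h3 := hcπ (w (!cls u)) (hwr _) (σ (c (Sum.inl u)))
    rw [h3, hσ] at h2
    exact h2 rfl
  have hne : ∀ u v : Ga m, RG u v → (σ (c (Sum.inl u))).val ≠ (σ (c (Sum.inl v))).val := by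
    intro u v huv heq
    have h2 := c.valid (show (GG M w hw : SimpleGraph (W m K V)).Adj (Sum.inl u) (Sum.inl v) from
      Or.inl (RW.main huv))
    apply h2
    rw [← hσ (c (Sum.inl u)), ← hσ (c (Sum.inl v)), Fin.ext heq]
  set d : Ga m → ℕ := fun u => (σ (c (Sum.inl u))).val with hd
  have hex : ∀ s : Bool, ∃ i : Fin m, d (va s i) = 1 := by
    intro s
    by_contra hcon
    push Not at hcon
    have hp : ∀ i : Fin m, d (va s i) = pc s := by
      intro i
      rcases hall (va s i) with h | h
      · exact h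
      · exact absurd h (hcon i)
    have hind : ∀ k : ℕ, ∀ hk : k < m + 1, d (ve s ⟨k, hk⟩) = 1 := by
      intro k
      induction k with
      | zero =>
        intro hk
        rcases hall (ve s ⟨0, hk⟩) with h | h
        · exact h.1
        · exact absurd rfl h.2
      | succ k ih =>
        intro hk
        have hk' : k < m := by omega
        have h1 := ih (by omega)
        have e1 := hne _ _ (RG.oa s ⟨k, hk'⟩)
        have e2 := hne _ _ (RG.oe s ⟨k, hk'⟩)
        have e3 := hne _ _ (RG.oe' s ⟨k, hk'⟩)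
        have h2 := hp ⟨k, hk'⟩
        have a1 := hall (vo s ⟨k, hk'⟩)
        have a2 := hall (ve s ⟨k + 1, hk⟩)
        have h1' : d (ve s (Fin.castSucc ⟨k, hk'⟩)) = 1 := h1
        have e3' : d (vo s ⟨k, hk'⟩) ≠ d (ve s ⟨k + 1, hk⟩) := e3
        have e2' : d (vo s ⟨k, hk'⟩) ≠ 1 := by rw [← h1']; exact e2
        have e1' : d (vo s ⟨k, hk'⟩) ≠ pc s := by rw [← h2]; exact e1
        have a1' : d (vo s ⟨k, hk'⟩) = 0 ∨ d (vo s ⟨k, hk'⟩) = 1 ∨ d (vo s ⟨k, hk'⟩) = 2 := a1
        have a2' : (d (ve s ⟨k + 1, hk⟩) = 1 ∧ k + 1 ≠ m) ∨ (d (ve s ⟨k + 1, hk⟩) = tc s ∧ k + 1 ≠ 0) :=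
          a2
        cases s <;> simp [pc, tc] at * <;> omega
    have h1 := hind m (by omega)
    rcases hall (ve s ⟨m, by omega⟩) with h | h
    · exact absurd rfl h.2
    · have h2 : d (ve s ⟨m, by omega⟩) = tc s := h.1
      rw [h1] at h2
      cases s <;> simp [tc] at h2
  obtain ⟨i, hi⟩ := hex false
  obtain ⟨j, hj⟩ := hex true
  exact hne _ _ (RG.ab i j) (by
    show d (va false i) = d (va true j)
    rw [hi, hj])

/-- the colouring which has a conflict only at the edge `a i₀ — b j₀` -/
def colr {m : ℕ} (i₀ j₀ : Fin m) : Ga m → ℕ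
  | (s, Sum.inl i) => if i.val = (if s then j₀ else i₀).val then 1 else pc s
  | (s, Sum.inr (Sum.inl i)) => if i.val ≤ (if s then j₀ else i₀).val then 1 else tc s
  | (s, Sum.inr (Sum.inr i)) => if i.val < (if s then j₀ else i₀).val then tc s else
      if i.val = (if s then j₀ else i₀).val then pc s else 1

theorem colr_allowed {m : ℕ} (i₀ j₀ : Fin m) (u : Ga m) : allowed u (colr i₀ j₀ u) := by
  obtain ⟨s, u⟩ := u
  have h1 := i₀.2
  have h2 := j₀.2
  rcases u with i | i | i
  · cases s <;> simp only [allowed, colr, pc] <;> split_ifs <;> simp_all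
  · cases s
    · simp only [allowed, colr, Bool.false_eq_true, if_false]
      split_ifs with h
      · exact Or.inl ⟨rfl, by omega⟩
      · exact Or.inr ⟨rfl, by omega⟩
    · simp only [allowed, colr, if_true]
      split_ifs with h
      · exact Or.inl ⟨rfl, by omega⟩
      · exact Or.inr ⟨rfl, by omega⟩
  · cases s <;> simp only [allowed, colr, pc, tc] <;> split_ifs <;> simp_all

theorem colr_lt {m : ℕ} (i₀ j₀ : Fin m) (u : Ga m) : colr i₀ j₀ u < 3 := by
  obtain ⟨s, u⟩ := u
  rcases u with i | i | i <;> cases s <;> simp only [colr, pc, tc] <;> split_ifs <;> simp_all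

theorem colr_ne {m : ℕ} (i₀ j₀ : Fin m) {u v : Ga m} (h : RG u v)
    (hne : ¬ (u = va false i₀ ∧ v = va true j₀)) : colr i₀ j₀ u ≠ colr i₀ j₀ v := by
  cases h with
  | ab i j =>
    simp only [colr, pc]
    by_cases h1 : i = i₀
    · by_cases h2 : j = j₀
      · exact absurd ⟨by rw [h1], by rw [h2]⟩ hne
      · have h3 : j.val ≠ j₀.val := fun h => h2 (Fin.ext h)
        simp [h1, h3]
    · have h3 : i.val ≠ i₀.val := fun h => h1 (Fin.ext h)
      simp [h3]
      split_ifs <;> simp
  | oa s i =>
    cases s <;> simp only [colr, pc, tc] <;> split_ifs <;> simp_all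
  | oe s i =>
    cases s <;> simp only [colr, pc, tc, Fin.val_castSucc] <;> split_ifs <;> simp_all <;> omega
  | oe' s i =>
    cases s <;> simp only [colr, pc, tc, Fin.val_succ] <;> split_ifs <;> simp_all <;> omega

theorem colorable_del {m K : ℕ} {V : Type} (M : SimpleGraph V) (w : Bool → V)
    (hw : M.Adj (w false) (w true)) (hK : 3 ≤ K) (i₀ j₀ : Fin m) :
    ((GG M w hw : SimpleGraph (W m K V)).deleteEdges
      {s(Sum.inl (va false i₀), Sum.inl (va true j₀))}).Colorable K := by
  classical
  let c : W m K V → Fin K := fun x => match x with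
    | Sum.inl u => ⟨colr i₀ j₀ u, lt_of_lt_of_le (colr_lt i₀ j₀ u) hK⟩
    | Sum.inr (j, _) => j
  have hc : ∀ a b : W m K V, RW M w a b →
      s(a, b) ≠ s(Sum.inl (va false i₀), Sum.inl (va true j₀)) → c a ≠ c b := by
    intro a b hab hne
    cases hab with
    | @main u v h =>
      intro heq
      have := colr_ne i₀ j₀ h (by
        rintro ⟨rfl, rfl⟩
        exact hne rfl)
      exact this (congrArg Fin.val heq)
    | pal hij hgh => exact hij
    | @cross u j h =>
      intro heq
      apply h
      have : colr i₀ j₀ u = j.val := congrArg Fin.val heq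
      rw [← this]
      exact colr_allowed i₀ j₀ u
  refine ⟨SimpleGraph.Coloring.mk c ?_⟩
  intro a b hab
  rw [SimpleGraph.deleteEdges_adj] at hab
  obtain ⟨hab, hne⟩ := hab
  rw [Set.mem_singleton_iff] at hne
  rcases hab with h | h
  · exact hc a b h hne
  · exact (hc b a h (by rwa [Sym2.eq_swap])).symm

end Pool.Agent.W62.Crit
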