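import Mathlib

/-!
# Shift graphs: large chromatic number and no short odd closed walks
-/

set_option autoImplicit false
set_option maxHeartbeats 4000000

namespace Pool.Agent.W62.Crit

/-- `Wk R a b L s`: there is a walk from `a` to `b` of length `L` which uses arcs of `R` forwards or
backwards and whose net displacement (forward minus backward steps) is `s`. -/
inductive Wk {V : Type} (R : V → V → Prop) : V → V → ℕ → ℤ → Prop
  | nil (a : V) : Wk R a a 0 0
  | fwd {a b c : V} {L : ℕ} {s : ℤ} (h : R a b) (w : Wk R b c L s) : Wk R a c (L + 1) (s + 1)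
  | bwd {a b c : V} {L : ℕ} {s : ℤ} (h : R b a) (w : Wk R b c L s) : Wk R a c (L + 1) (s - 1)

theorem Wk.abs_le {V : Type} {R : V → V → Prop} {a b : V} {L : ℕ} {s : ℤ} (w : Wk R a b L s) :
    -(L : ℤ) ≤ s ∧ s ≤ L := by
  induction w with
  | nil => simp
  | fwd h w ih => push_cast; omega
  | bwd h w ih => push_cast; omega

theorem Wk.parity {V : Type} {R : V → V → Prop} {a b : V} {L : ℕ} {s : ℤ} (w : Wk R a b L s) :
    ∃ k : ℤ, (L : ℤ) = s + 2 * k := by
  induction w with
  | nil => exact ⟨0, by simp⟩
  | fwd h w ih => obtain ⟨k, hk⟩ := ih; exact ⟨k, by push_cast; omega⟩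
  | bwd h w ih => obtain ⟨k, hk⟩ := ih; exact ⟨k + 1, by push_cast; omega⟩

theorem Wk.rank_up {V : Type} {R : V → V → Prop} {ρ : V → ℕ} (hρ : ∀ a b, R a b → ρ a < ρ b)
    {a b : V} {L : ℕ} {s : ℤ} (w : Wk R a b L s) : s = L → ρ a + L ≤ ρ b := by
  induction w with
  | nil => intro _; simp
  | fwd h w ih =>
    intro hs
    have := ih (by push_cast at hs; omega)
    have := hρ _ _ h
    omega
  | bwd h w ih =>
    intro hs
    have := w.abs_le
    push_cast at hs
    omega

theorem Wk.rank_down {V : Type} {R : V → V → Prop} {ρ : V → ℕ} (hρ : ∀ a b, R a b → ρ a < ρ b)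
    {a b : V} {L : ℕ} {s : ℤ} (w : Wk R a b L s) : s = -(L : ℤ) → ρ b + L ≤ ρ a := by
  induction w with
  | nil => intro _; simp
  | fwd h w ih =>
    intro hs
    have := w.abs_le
    push_cast at hs
    omega
  | bwd h w ih =>
    intro hs
    have := ih (by push_cast at hs; omega)
    have := hρ _ _ h
    omega

/-- the line digraph -/
def LD {V : Type} (R : V → V → Prop) (e f : {p : V × V // R p.1 p.2}) : Prop := e.1.2 = f.1.1

theorem Wk.tails {V : Type} {R : V → V → Prop} {e f : {p : V × V // R p.1 p.2}} {L : ℕ} {s : ℤ}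
    (w : Wk (LD R) e f L s) : Wk R e.1.1 f.1.1 L s := by
  induction w with
  | nil => exact Wk.nil _
  | @fwd a b c L s h w ih =>
    refine Wk.fwd ?_ ih
    have := a.2
    unfold LD at h
    rw [← h]
    exact this
  | @bwd a b c L s h w ih =>
    refine Wk.bwd ?_ ih
    have := b.2
    unfold LD at h
    rw [← h]
    exact this

theorem Wk.heads {V : Type} {R : V → V → Prop} {e f : {p : V × V // R p.1 p.2}} {L : ℕ} {s : ℤ}
    (w : Wk (LD R) e f L s) : Wk R e.1.2 f.1.2 L s := by
  induction w with
  | nil => exact Wk.nil _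
  | @fwd a b c L s h w ih =>
    refine Wk.fwd ?_ ih
    have := b.2
    unfold LD at h
    rw [h]
    exact this
  | @bwd a b c L s h w ih =>
    refine Wk.bwd ?_ ih
    have := a.2
    unfold LD at h
    rw [h]
    exact this

theorem Wk.short {V : Type} {R : V → V → Prop} {e f : {p : V × V // R p.1 p.2}} {L : ℕ} {s : ℤ}
    (w : Wk (LD R) e f L s) : s = L ∨ s = -(L : ℤ) ∨
      ∃ L' : ℕ, L = L' + 2 ∧ (Wk R e.1.1 f.1.1 L' s ∨ Wk R e.1.2 f.1.2 L' s) := by
  induction w with
  | nil => left; simp
  | @fwd a b c L s h w ih =>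
    cases w with
    | nil => left; simp
    | @fwd _ b' _ L₁ s₁ h' w' =>
      rcases ih with ih | ih | ⟨L', hL, ih⟩
      · left; push_cast at ih ⊢; omega
      · have := w'.abs_le
        push_cast at ih; omega
      · right; right
        refine ⟨L' + 1, by omega, ?_⟩
        rcases ih with ih | ih
        · left
          refine Wk.fwd ?_ ih
          have h1 := a.2
          unfold LD at h
          rw [← h]; exact h1
        · right
          refine Wk.fwd ?_ ih
          have h1 := b.2
          unfold LD at h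
          rw [h]; exact h1
    | @bwd _ b' _ L₁ s₁ h' w' =>
      right; right
      refine ⟨L₁, rfl, Or.inr ?_⟩
      have h2 := w'.heads
      unfold LD at h h'
      have : s₁ - 1 + 1 = s₁ := by ring
      rw [this, h, ← h']
      exact h2
  | @bwd a b c L s h w ih =>
    cases w with
    | nil => right; left; simp
    | @bwd _ b' _ L₁ s₁ h' w' =>
      rcases ih with ih | ih | ⟨L', hL, ih⟩
      · have := w'.abs_le
        push_cast at ih; omega
      · right; left; push_cast at ih ⊢; omega
      · right; right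
        refine ⟨L' + 1, by omega, ?_⟩
        rcases ih with ih | ih
        · left
          refine Wk.bwd ?_ ih
          have h1 := b.2
          unfold LD at h
          rw [← h]; exact h1
        · right
          refine Wk.bwd ?_ ih
          have h1 := a.2
          unfold LD at h
          rw [h]; exact h1
    | @fwd _ b' _ L₁ s₁ h' w' =>
      right; right
      refine ⟨L₁, rfl, Or.inl ?_⟩
      have h2 := w'.tails
      unfold LD at h h'
      have : s₁ + 1 - 1 = s₁ := by ring
      rw [this, ← h, h']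
      exact h2

/-- closed walks of length at most `r` are balanced -/
def Bal {V : Type} (R : V → V → Prop) (r : ℕ) : Prop :=
  ∀ (a : V) (L : ℕ) (s : ℤ), L ≤ r → Wk R a a L s → s = 0

theorem bal_LD {V : Type} {R : V → V → Prop} {ρ : V → ℕ} (hρ : ∀ a b, R a b → ρ a < ρ b) {r : ℕ}
    (h : Bal R r) : Bal (LD R) (r + 2) := by
  intro e L s hL w
  rcases w.short with h1 | h1 | ⟨L', hL', h1⟩
  · have := w.tails.rank_up hρ h1
    omega
  · have := w.tails.rank_down hρ h1
    omega
  · rcases h1 with h1 | h1
    · exact h _ L' s (by omega) h1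
    · exact h _ L' s (by omega) h1

def Col {V : Type} (R : V → V → Prop) (C : Type) : Prop := ∃ c : V → C, ∀ a b, R a b → c a ≠ c b

theorem col_LD {V : Type} {R : V → V → Prop} {C : Type} (h : Col (LD R) C) : Col R (Set C) := by
  obtain ⟨c, hc⟩ := h
  refine ⟨fun v => {x | ∃ e : {p : V × V // R p.1 p.2}, e.1.1 = v ∧ c e = x}, fun a b hab heq => ?_⟩
  have h1 : c ⟨(a, b), hab⟩ ∈ {x | ∃ e : {p : V × V // R p.1 p.2}, e.1.1 = a ∧ c e = x} :=
    ⟨⟨(a, b), hab⟩, rfl, rfl⟩
  beta_reduce at heq
  rw [heq] at h1
  obtain ⟨e', h2, h3⟩ := h1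
  exact hc ⟨(a, b), hab⟩ e' (by unfold LD; exact h2.symm) h3.symm

theorem exists_dig (r : ℕ) : ∀ (C : Type) [Finite C], ∃ (V : Type) (_ : Finite V)
    (R : V → V → Prop) (ρ : V → ℕ), (∀ a b, R a b → ρ a < ρ b) ∧ Bal R (2 * r) ∧ ¬ Col R C := by
  induction r with
  | zero =>
    intro C _
    refine ⟨Fin (Nat.card C + 1), inferInstance, (· < ·), fun a => a.1, fun a b h => h, ?_, ?_⟩
    · intro a L s hL w
      have := w.abs_le
      omega
    · rintro ⟨c, hc⟩
      have hinj : Function.Injective c := by
        intro a b hab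
        rcases lt_trichotomy a b with h | h | h
        · exact absurd hab (hc _ _ h)
        · exact h
        · exact absurd hab.symm (hc _ _ h)
      have := Nat.card_le_card_of_injective c hinj
      simp at this
  | succ r ih =>
    intro C _
    obtain ⟨V, hV, R, ρ, hρ, hB, hC⟩ := ih (Set C)
    refine ⟨{p : V × V // R p.1 p.2}, inferInstance, LD R, fun e => ρ e.1.1, ?_, ?_, ?_⟩
    · intro a b h
      unfold LD at h
      show ρ a.1.1 < ρ b.1.1
      rw [← h]
      exact hρ _ _ a.2
    · have := bal_LD hρ hB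
      rw [show 2 * (r + 1) = 2 * r + 2 by ring]
      exact this
    · exact fun h => hC (col_LD h)

/-- A finite graph `M` with an edge `w0 w1`, such that the component of `w0` has no colouring with
`K` colours and there are no odd closed walks of length less than `ℓ`. -/
theorem exists_M (K ℓ : ℕ) (hK : 0 < K) : ∃ (V : Type) (_ : Fintype V) (M : SimpleGraph V)
    (w0 w1 : V), M.Adj w0 w1 ∧
    (¬ ∃ c : V → Fin K, ∀ g h, M.Reachable w0 g → M.Adj g h → c g ≠ c h) ∧
    ∀ (a : V) (p : M.Walk a a), Odd p.length → ℓ ≤ p.length := by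
  classical
  obtain ⟨V, hV, R, ρ, hρ, hB, hC⟩ := exists_dig ℓ (Fin K)
  let M : SimpleGraph V :=
    { Adj := fun a b => R a b ∨ R b a
      symm := ⟨fun a b h => h.symm⟩
      loopless := ⟨fun a h => by
        rcases h with h | h <;> exact lt_irrefl _ (hρ _ _ h)⟩ }
  have hcomp : ∃ w0 : V, ¬ ∃ c : V → Fin K, ∀ g h, M.Reachable w0 g → M.Adj g h → c g ≠ c h := by
    by_contra hcon
    push Not at hcon
    choose c hc using hcon
    apply hC
    refine ⟨fun g => c (M.connectedComponentMk g).out g, fun g h hgh => ?_⟩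
    have hadj : M.Adj g h := Or.inl hgh
    have heq : M.connectedComponentMk g = M.connectedComponentMk h :=
      SimpleGraph.ConnectedComponent.sound hadj.reachable
    have hr : M.Reachable (M.connectedComponentMk g).out g := by
      apply SimpleGraph.ConnectedComponent.exact
      exact Quot.out_eq _
    have := hc _ g h hr hadj
    simp only
    rw [← heq]
    exact this
  obtain ⟨w0, hw0⟩ := hcomp
  have hex : ∃ w1, M.Adj w0 w1 := by
    by_contra hcon
    push Not at hcon
    apply hw0
    refine ⟨fun _ => ⟨0, hK⟩, fun g h hg hgh => ?_⟩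
    exfalso
    obtain ⟨p⟩ := hg
    cases p with
    | nil => exact hcon _ hgh
    | cons h' _ => exact hcon _ h'
  obtain ⟨w1, hw1⟩ := hex
  refine ⟨V, Fintype.ofFinite V, M, w0, w1, hw1, hw0, ?_⟩
  have hwalk : ∀ (a b : V) (p : M.Walk a b), ∃ s, Wk R a b p.length s := by
    intro a b p
    induction p with
    | nil => exact ⟨0, Wk.nil _⟩
    | cons h p ih =>
      obtain ⟨s, hs⟩ := ih
      rcases h with h | h
      · exact ⟨s + 1, by rw [SimpleGraph.Walk.length_cons]; exact Wk.fwd h hs⟩
      · exact ⟨s - 1, by rw [SimpleGraph.Walk.length_cons]; exact Wk.bwd h hs⟩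
  intro a p hp
  by_contra hlt
  push Not at hlt
  obtain ⟨s, hs⟩ := hwalk a a p
  have h0 := hB a _ s (by omega) hs
  obtain ⟨k, hk⟩ := hs.parity
  obtain ⟨j, hj⟩ := hp
  omega

end Pool.Agent.W62.Crit
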