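import Pool.Agent.W893.EV.Stm

/-!
Part ASY of project EV: elementary asymptotics.
-/

set_option autoImplicit false

open Filter Topology

namespace Pool.Agent.W62.EVASY

theorem ASY_proof : Pool.Agent.W893.EV.ASY := by
  intro ε hε
  have hδ : 0 < ε ^ 2 / 2700 := by positivity
  have h1 : ∀ᶠ c : ℕ in atTop, (c : ℝ) ^ 1 / (2 : ℝ) ^ c < ε ^ 2 / 2700 :=
    (tendsto_pow_const_div_const_pow_of_one_lt 1 (by norm_num : (1 : ℝ) < 2)).eventually
      (gt_mem_nhds hδ)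
  obtain ⟨K, hK⟩ := (h1.and (eventually_ge_atTop 1)).exists_forall_of_atTop
  refine ⟨4 * (2 ^ K + 1) ^ 2 + 1, ?_⟩
  intro n M hn hM
  have hM1 : 2 ^ K + 1 < M := by
    by_contra h
    have h2 : M ≤ 2 ^ K + 1 := not_lt.1 h
    have h3 : M ^ 2 ≤ (2 ^ K + 1) ^ 2 := Nat.pow_le_pow_left h2 2
    omega
  have hMpos : 1 < M := by
    have : 0 < 2 ^ K := by positivity
    omega
  set c := Nat.clog 2 M with hc
  have hcM : M ≤ 2 ^ c := Nat.le_pow_clog (by norm_num) M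
  have hcK : K ≤ c := by
    by_contra h
    have h2 : c ≤ K := by omega
    have h3 : 2 ^ c ≤ 2 ^ K := Nat.pow_le_pow_right (by norm_num) h2
    omega
  have hc1 : 1 ≤ c := (hK c hcK).2
  have hpred : 2 ^ (c - 1) < M := by
    have := Nat.pow_pred_clog_lt_self (by norm_num : 1 < 2) hMpos
    simpa using this
  have hbound : (n + 1) * M + 1 ≤ 2 ^ (3 * c + 3) := by
    have h2 : (n + 1) * M + 1 ≤ 8 * M ^ 3 := by
      have h3 : (n + 1) * M ≤ (4 * M ^ 2 + 1) * M := Nat.mul_le_mul_right M (by omega)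
      have h3' : (4 * M ^ 2 + 1) * M = 4 * M ^ 3 + M := by ring
      have h3'' : M ≤ M ^ 3 := Nat.le_self_pow (by norm_num) M
      omega
    have h4 : M ^ 3 ≤ (2 ^ c) ^ 3 := Nat.pow_le_pow_left hcM 3
    calc (n + 1) * M + 1 ≤ 8 * M ^ 3 := h2
      _ ≤ 8 * (2 ^ c) ^ 3 := Nat.mul_le_mul_left 8 h4
      _ = 2 ^ (3 * c + 3) := by rw [← pow_mul, pow_add]; ring
  have hclog : Nat.clog 2 ((n + 1) * M + 1) ≤ 3 * c + 3 :=
    Nat.clog_le_of_le_pow hbound
  have hmain : 225 * ((3 * c + 3 : ℕ) : ℝ) ≤ ε ^ 2 * M := by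
    have h5 := (hK c hcK).1
    rw [div_lt_iff₀ (by positivity), pow_one] at h5
    have h6 : (2 : ℝ) ^ c = 2 * 2 ^ (c - 1) := by
      rw [← pow_succ']
      congr 1
      omega
    have h7 : ((2 : ℝ) ^ (c - 1)) ≤ M := by exact_mod_cast hpred.le
    have h8 : (1 : ℝ) ≤ c := by exact_mod_cast hc1
    have h9 : ε ^ 2 * (2 : ℝ) ^ (c - 1) ≤ ε ^ 2 * M :=
      mul_le_mul_of_nonneg_left h7 (by positivity)
    push_cast
    rw [h6] at h5
    nlinarith
  have hsq : (15 * Real.sqrt (Nat.clog 2 ((n + 1) * M + 1))) ≤ ε * Real.sqrt M := by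
    have hl : 15 * Real.sqrt (Nat.clog 2 ((n + 1) * M + 1) : ℝ)
        = Real.sqrt (225 * (Nat.clog 2 ((n + 1) * M + 1) : ℝ)) := by
      rw [Real.sqrt_mul (by norm_num), show (225 : ℝ) = 15 ^ 2 by norm_num,
        Real.sqrt_sq (by norm_num)]
    have hr : ε * Real.sqrt (M : ℝ) = Real.sqrt (ε ^ 2 * M) := by
      rw [Real.sqrt_mul (by positivity), Real.sqrt_sq hε.le]
    rw [hl, hr]
    apply Real.sqrt_le_sqrt
    have h10 : ((Nat.clog 2 ((n + 1) * M + 1) : ℕ) : ℝ) ≤ ((3 * c + 3 : ℕ) : ℝ) := by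
      exact_mod_cast hclog
    linarith
  exact hsq

end Pool.Agent.W62.EVASY
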