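import Pool.Agent.W815.RGC.StmG

set_option autoImplicit false

/-!
# Project RGE: from real windows to integer windows (REAL)
-/

namespace Pool.Agent.W62.GReal2

open Finset MeasureTheory Pool.Agent.W815.RGC Pool.Agent.W815.RGE

theorem int_const (f : ℝ → ℝ) (a b c : ℝ) (h : a ≤ b) (hf : ∀ x, a < x → x < b → f x = c) :
    IntervalIntegrable f volume a b ∧ ∫ x in a..b, f x = (b - a) * c := by
  have hE : Set.EqOn (fun _ : ℝ => c) f (Set.uIoo a b) := by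
    intro x hx
    rw [Set.uIoo_of_le h] at hx
    exact (hf x hx.1 hx.2).symm
  refine ⟨intervalIntegrable_const.congr_uIoo hE, ?_⟩
  rw [← intervalIntegral.integral_congr_uIoo hE, intervalIntegral.integral_const, smul_eq_mul]

/-- the function which is integrated -/
noncomputable def G (g : ℕ → ℝ) (H τ y : ℝ) : ℝ :=
  if ∑ n ∈ Ioo ⌊y⌋₊ ⌈y + H⌉₊, g n ≤ τ then 1 else 0

/-- indicator of a window sum -/
noncomputable def J (g : ℕ → ℝ) (τ : ℝ) (a K : ℕ) : ℝ := if W g a K ≤ τ then 1 else 0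

theorem Ioo_eq (a b : ℕ) : Ioo a (b + 1) = Ioc a b := by
  ext n
  simp only [mem_Ioo, mem_Ioc]
  omega

theorem G_fst (g : ℕ → ℝ) (H τ : ℝ) (hH : 0 ≤ H) (a : ℕ) (y : ℝ) (h1 : (a : ℝ) < y)
    (h2 : y < a + (1 - Int.fract H)) : G g H τ y = J g τ a ⌊H⌋₊ := by
  have hf0 := Int.fract_nonneg H
  have hf1 := Int.fract_lt_one H
  have hfl : H = (⌊H⌋₊ : ℝ) + Int.fract H := by
    rw [natCast_floor_eq_intCast_floor hH]
    exact (Int.floor_add_fract H).symm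
  have e1 : ⌊y⌋₊ = a := by
    rw [Nat.floor_eq_iff (by linarith [Nat.cast_nonneg (α := ℝ) a])]
    exact ⟨h1.le, by linarith⟩
  have e2 : ⌈y + H⌉₊ = a + ⌊H⌋₊ + 1 := by
    rw [Nat.ceil_eq_iff (by omega)]
    constructor
    · rw [Nat.add_sub_cancel]
      push_cast
      linarith
    · push_cast
      linarith
  unfold G J W
  rw [e1, e2, Ioo_eq]

theorem G_snd (g : ℕ → ℝ) (H τ : ℝ) (hH : 0 ≤ H) (a : ℕ) (y : ℝ)
    (h1 : a + (1 - Int.fract H) < y) (h2 : y < a + 1) : G g H τ y = J g τ a (⌊H⌋₊ + 1) := by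
  have hf0 := Int.fract_nonneg H
  have hf1 := Int.fract_lt_one H
  have hfl : H = (⌊H⌋₊ : ℝ) + Int.fract H := by
    rw [natCast_floor_eq_intCast_floor hH]
    exact (Int.floor_add_fract H).symm
  have e1 : ⌊y⌋₊ = a := by
    rw [Nat.floor_eq_iff (by linarith [Nat.cast_nonneg (α := ℝ) a])]
    exact ⟨by linarith, h2⟩
  have e2 : ⌈y + H⌉₊ = (a + (⌊H⌋₊ + 1)) + 1 := by
    rw [Nat.ceil_eq_iff (by omega)]
    constructor
    · rw [Nat.add_sub_cancel]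
      push_cast
      linarith
    · push_cast
      linarith
  unfold G J W
  rw [e1, e2, Ioo_eq]

theorem G_unit (g : ℕ → ℝ) (H τ : ℝ) (hH : 0 ≤ H) (a : ℕ) :
    IntervalIntegrable (G g H τ) volume a ((a + 1 : ℕ) : ℝ) ∧
      ∫ y in (a : ℝ)..((a + 1 : ℕ) : ℝ), G g H τ y =
        (1 - Int.fract H) * J g τ a ⌊H⌋₊ + Int.fract H * J g τ a (⌊H⌋₊ + 1) := by
  have hf0 := Int.fract_nonneg H
  have hf1 := Int.fract_lt_one H
  obtain ⟨i1, j1⟩ := int_const (G g H τ) a (a + (1 - Int.fract H)) (J g τ a ⌊H⌋₊) (by linarith)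
    (fun y h1 h2 => G_fst g H τ hH a y h1 h2)
  obtain ⟨i2, j2⟩ := int_const (G g H τ) (a + (1 - Int.fract H)) (a + 1)
    (J g τ a (⌊H⌋₊ + 1)) (by linarith) (fun y h1 h2 => G_snd g H τ hH a y h1 h2)
  have e : ((a + 1 : ℕ) : ℝ) = (a : ℝ) + 1 := by push_cast; rfl
  rw [e]
  refine ⟨i1.trans i2, ?_⟩
  rw [← intervalIntegral.integral_add_adjacent_intervals i1 i2, j1, j2]
  ring

theorem G_ii (g : ℕ → ℝ) (H τ : ℝ) (hH : 0 ≤ H) (u v : ℝ) (hu : 0 ≤ u) (hv : 0 ≤ v) :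
    IntervalIntegrable (G g H τ) volume u v := by
  have h1 : ∀ N : ℕ, IntervalIntegrable (G g H τ) volume ((0 : ℕ) : ℝ) (N : ℝ) := by
    intro N
    exact IntervalIntegrable.trans_iterate (a := fun n : ℕ => (n : ℝ))
      (fun k _ => (G_unit g H τ hH k).1)
  obtain ⟨N, hN⟩ := exists_nat_ge (max u v)
  refine (h1 N).mono_set ?_
  have hu2 : u ≤ N := (le_max_left u v).trans hN
  have hv2 : v ≤ N := (le_max_right u v).trans hN
  apply Set.uIcc_subset_uIcc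
  · exact Set.mem_uIcc_of_le (by simpa using hu) hu2
  · exact Set.mem_uIcc_of_le (by simpa using hv) hv2

theorem G_tail (g : ℕ → ℝ) (H τ : ℝ) (y : ℝ) (hy : 0 ≤ y) :
    |∫ t in (⌊y⌋₊ : ℝ)..y, G g H τ t| ≤ 1 := by
  have h1 : (⌊y⌋₊ : ℝ) ≤ y := Nat.floor_le hy
  have h2 : y < (⌊y⌋₊ : ℝ) + 1 := Nat.lt_floor_add_one y
  have h3 : ‖∫ t in (⌊y⌋₊ : ℝ)..y, G g H τ t‖ ≤ 1 * |y - ⌊y⌋₊| := by
    apply intervalIntegral.norm_integral_le_of_norm_le_const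
    intro t ht
    unfold G
    split_ifs <;> simp
  rw [Real.norm_eq_abs] at h3
  refine h3.trans ?_
  rw [abs_of_nonneg (by linarith)]
  linarith

theorem vol_eq (F : ℝ → ℝ) (hF : Measurable F) (a b τ : ℝ) (hab : a ≤ b) :
    (volume {x : ℝ | x ∈ Set.Icc a b ∧ F x ≤ τ}).toReal =
      ∫ x in a..b, (if F x ≤ τ then (1 : ℝ) else 0) := by
  have hs : MeasurableSet {x : ℝ | F x ≤ τ} := measurableSet_le hF measurable_const
  rw [intervalIntegral.integral_of_le hab, ← integral_Icc_eq_integral_Ioc]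
  have e1 : (fun x : ℝ => (if F x ≤ τ then (1 : ℝ) else 0)) =
      Set.indicator {x : ℝ | F x ≤ τ} (1 : ℝ → ℝ) := by
    funext x
    simp [Set.indicator]
  rw [e1, integral_indicator_one hs, Measure.real, Measure.restrict_apply hs]
  congr 2
  ext x
  exact and_comm

theorem realw : SReal := by
  intro g X H τ hX hH1 hHX
  have hH : 0 ≤ H := by linarith
  -- a measurable form of the window sum
  let N : ℕ := ⌊2 * X + H⌋₊ + 1
  let F : ℝ → ℝ := fun x => ∑ n ∈ Finset.range N, if |(n : ℝ) - x| < H / 2 then g n else 0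
  have hF : Measurable F := by
    apply Finset.measurable_fun_sum
    intro n _
    apply Measurable.ite
    · exact measurableSet_lt (by fun_prop) measurable_const
    · exact measurable_const
    · exact measurable_const
  have hFM : ∀ x ∈ Set.Icc X (2 * X), Mx g x H = F x := by
    intro x hx
    simp only [Mx, F]
    rw [← Finset.sum_filter]
    apply Finset.sum_congr _ (fun _ _ => rfl)
    ext n
    rw [mem_filter, mem_filter, mem_range, mem_range]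
    constructor
    · rintro ⟨h1, h2⟩
      refine ⟨lt_of_lt_of_le h1 ?_, h2⟩
      have : ⌊x + H⌋₊ ≤ ⌊2 * X + H⌋₊ := Nat.floor_mono (by linarith [hx.2])
      omega
    · rintro ⟨h1, h2⟩
      refine ⟨?_, h2⟩
      rw [abs_lt] at h2
      have h3 : n ≤ ⌊x + H⌋₊ := Nat.le_floor (by linarith)
      omega
  have e0 : {x : ℝ | x ∈ Set.Icc X (2 * X) ∧ Mx g x H ≤ τ} =
      {x : ℝ | x ∈ Set.Icc X (2 * X) ∧ F x ≤ τ} := by
    ext x
    simp only [Set.mem_ofPred_eq]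
    constructor
    · rintro ⟨h1, h2⟩
      exact ⟨h1, by rw [← hFM x h1]; exact h2⟩
    · rintro ⟨h1, h2⟩
      exact ⟨h1, by rw [hFM x h1]; exact h2⟩
  rw [e0, vol_eq F hF X (2 * X) τ (by linarith)]
  -- substitution
  have e1 : (∫ x in X..2 * X, (if F x ≤ τ then (1 : ℝ) else 0)) =
      ∫ y in (X - H / 2)..(2 * X - H / 2), G g H τ y := by
    rw [← intervalIntegral.integral_comp_sub_right (G g H τ) (H / 2)]
    apply intervalIntegral.integral_congr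
    intro x hx
    rw [Set.uIcc_of_le (by linarith)] at hx
    have hx0 : 0 ≤ x - H / 2 := by linarith [hx.1]
    have e2 : F x = ∑ n ∈ Ioo ⌊x - H / 2⌋₊ ⌈x - H / 2 + H⌉₊, g n := by
      rw [← hFM x hx]
      unfold Mx
      apply Finset.sum_congr _ (fun _ _ => rfl)
      ext n
      rw [mem_filter, mem_range, mem_Ioo, Nat.floor_lt hx0, Nat.lt_ceil, abs_lt]
      constructor
      · rintro ⟨-, h1, h2⟩
        constructor <;> linarith
      · rintro ⟨h1, h2⟩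
        refine ⟨?_, by linarith, by linarith⟩
        have h3 : n ≤ ⌊x + H⌋₊ := Nat.le_floor (by linarith)
        omega
    simp only [G, e2]
  rw [e1]
  set Y₁ := X - H / 2 with hY₁
  set Y₂ := 2 * X - H / 2 with hY₂
  have hy1 : 0 ≤ Y₁ := by rw [hY₁]; linarith
  have hy2 : 0 ≤ Y₂ := by rw [hY₂]; linarith
  have hy12 : Y₁ ≤ Y₂ := by rw [hY₁, hY₂]; linarith
  have hB : ⌊Y₁⌋₊ ≤ ⌊Y₂⌋₊ := Nat.floor_mono hy12
  -- the main part
  have e2 : ∫ y in (⌊Y₁⌋₊ : ℝ)..(⌊Y₂⌋₊ : ℝ), G g H τ y =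
      (1 - Int.fract H) *
        (((Ico ⌊Y₁⌋₊ ⌊Y₂⌋₊).filter (fun a => W g a ⌊H⌋₊ ≤ τ)).card : ℝ) +
      Int.fract H *
        (((Ico ⌊Y₁⌋₊ ⌊Y₂⌋₊).filter (fun a => W g a (⌊H⌋₊ + 1) ≤ τ)).card : ℝ) := by
    rw [← intervalIntegral.sum_integral_adjacent_intervals_Ico (a := fun n : ℕ => (n : ℝ)) hB
      (fun k _ => (G_unit g H τ hH k).1)]
    rw [← Finset.sum_boole, ← Finset.sum_boole, mul_sum, mul_sum, ← sum_add_distrib]
    exact sum_congr rfl fun k _ => (G_unit g H τ hH k).2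
  rw [← e2]
  -- the two ends
  have hb1 : (0 : ℝ) ≤ (⌊Y₁⌋₊ : ℝ) := Nat.cast_nonneg _
  have hb2 : (0 : ℝ) ≤ (⌊Y₂⌋₊ : ℝ) := Nat.cast_nonneg _
  have s1 := intervalIntegral.integral_add_adjacent_intervals
    (G_ii g H τ hH (⌊Y₁⌋₊ : ℝ) Y₁ hb1 hy1) (G_ii g H τ hH Y₁ Y₂ hy1 hy2)
  have s2 := intervalIntegral.integral_add_adjacent_intervals
    (G_ii g H τ hH (⌊Y₁⌋₊ : ℝ) (⌊Y₂⌋₊ : ℝ) hb1 hb2) (G_ii g H τ hH (⌊Y₂⌋₊ : ℝ) Y₂ hb2 hy2)
  have t1 := G_tail g H τ Y₁ hy1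
  have t2 := G_tail g H τ Y₂ hy2
  have e3 : (∫ y in Y₁..Y₂, G g H τ y) - ∫ y in (⌊Y₁⌋₊ : ℝ)..(⌊Y₂⌋₊ : ℝ), G g H τ y =
      (∫ t in (⌊Y₂⌋₊ : ℝ)..Y₂, G g H τ t) - ∫ t in (⌊Y₁⌋₊ : ℝ)..Y₁, G g H τ t := by
    linarith
  rw [e3]
  have t3 := abs_sub (∫ t in (⌊Y₂⌋₊ : ℝ)..Y₂, G g H τ t) (∫ t in (⌊Y₁⌋₊ : ℝ)..Y₁, G g H τ t)
  linarith

end Pool.Agent.W62.GReal2
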